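import Pool.Agent.R3M.Kit

/-!
# R3M, row TOP: the top level
-/

set_option autoImplicit false

namespace Pool.Agent.R3M.H81

open Pool.Agent.R3M Pool.Agent.R3M.Kit

theorem sub_erase {α : Type} [DecidableEq α] {I S : Finset α} (h : I ⊆ S)
    (hc : I.card + 1 = S.card) : ∃ a ∈ S, I = S.erase a := by
  have h1 : ∃ a ∈ S, a ∉ I := by
    by_contra hcon
    push Not at hcon
    have := Finset.card_le_card (fun u hu => hcon u hu : S ⊆ I)
    omega
  obtain ⟨a, haS, haI⟩ := h1
  refine ⟨a, haS, Finset.eq_of_subset_of_card_le ?_ ?_⟩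
  · intro u hu
    exact Finset.mem_erase.mpr ⟨fun hua => haI (hua ▸ hu), h hu⟩
  · rw [Finset.card_erase_of_mem haS]
    omega

theorem sub_of_level {α : Type} [DecidableEq α] {I S : Finset α} {n : ℕ} (hc : I.card = n)
    (h : n ≤ (I ∩ S).card) : I ⊆ S := by
  have h1 : I ∩ S = I :=
    Finset.eq_of_subset_of_card_le Finset.inter_subset_left (by omega)
  intro u hu
  rw [← h1] at hu
  exact (Finset.mem_inter.mp hu).2

theorem top : TopStmt := by
  intro α _ M N n S φ hS hclo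
  obtain ⟨a₀, ha₀⟩ : S.Nonempty := by
    rw [← Finset.card_pos]
    have := hS.cS.2.2
    omega
  have hst : ∀ a ∈ S, CI M N n (S.erase a) := by
    intro a ha
    refine ⟨M.sub hS.cS.1 (Finset.erase_subset _ _), N.sub hS.cS.2.1 (Finset.erase_subset _ _), ?_⟩
    rw [Finset.card_erase_of_mem ha]
    have := hS.cS.2.2
    omega
  refine ⟨fun I => φ (S.erase a₀) I, ?_⟩
  intro I J hI hJ _ hkI hkJ _
  obtain ⟨a, ha, rfl⟩ := sub_erase (sub_of_level hI.2.2 hkI)
    (by rw [hI.2.2, hS.cS.2.2])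
  obtain ⟨b, hb, rfl⟩ := sub_erase (sub_of_level hJ.2.2 hkJ)
    (by rw [hJ.2.2, hS.cS.2.2])
  have := clo_tri hclo (hst a₀ ha₀) (hst a ha) (hst b hb) (near_erase _ _ _) (near_erase _ _ _)
    (near_erase _ _ _)
  show φ (S.erase a) (S.erase b) = φ (S.erase a₀) (S.erase b) - φ (S.erase a₀) (S.erase a)
  omega

end Pool.Agent.R3M.H81
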