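import Pool.Agent.R3M.Kit
import Pool.Agent.Helper81_R3M.TOP

/-!
# R3M, row FIL: filling one level
-/

set_option autoImplicit false

namespace Pool.Agent.R3M.H81

open Pool.Agent.R3M Pool.Agent.R3M.Kit

theorem level_of_sub {α : Type} [DecidableEq α] {I S : Finset α} {n : ℕ} (hc : I.card = n)
    (h : I ⊆ S) : (I ∩ S).card = n := by
  rw [Finset.inter_eq_left.mpr h, hc]

theorem fil (hor : HorStmt) : FilStmt := by
  intro α _ M N n S φ θ k hS hclo hkn hV hcons I J hI hJ hn hkI hkJ hal
  rcases near_cases (hI.2.2.trans hJ.2.2.symm) hn with hIJ | ⟨x, y, hxI, hxJ, hyJ, hyI, hJe, hIe⟩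
  · subst hIJ
    rw [clo_self hclo hI]
    ring
  · by_cases hxS : x ∈ S
    · by_cases hyS : y ∈ S
      · rcases hal with ⟨u, hu, huS⟩ | ⟨h1, h2⟩
        · exfalso
          rcases hu with ⟨hu1, hu2⟩ | ⟨hu1, hu2⟩
          · have : u = x := Finset.card_le_one.mp hn.1 u (Finset.mem_sdiff.mpr ⟨hu1, hu2⟩) x
              (Finset.mem_sdiff.mpr ⟨hxI, hxJ⟩)
            exact huS (this ▸ hxS)
          · have : u = y := Finset.card_le_one.mp hn.2 u (Finset.mem_sdiff.mpr ⟨hu1, hu2⟩) y
              (Finset.mem_sdiff.mpr ⟨hyJ, hyI⟩)
            exact huS (this ▸ hyS)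
        · refine hV.1 I J hI hJ hn ?_ ?_ (Or.inr ⟨h1, h2⟩)
          · rw [level_of_sub hI.2.2 h1]; omega
          · rw [level_of_sub hJ.2.2 h2]; omega
      · -- down from `I` to `J`
        have hup : Up M N S J x y := by
          refine ⟨hxS, hxJ, hyJ, hyS, ?_, ?_⟩
          · rw [← hIe]; exact hI.1
          · rw [← hIe]; exact hI.2.1
        have hl := up_level hup
        rw [← hIe] at hl
        rcases Nat.lt_or_ge k (J ∩ S).card with hlt | hge
        · exact hV.1 I J hI hJ hn (by omega) hlt hal
        · have h1 := hV.2 J x y hJ (by omega) hup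
          rw [← hIe] at h1
          have h2 := clo_anti hclo hJ hI (near_symm hn)
          omega
    · by_cases hyS : y ∈ S
      · have hup : Up M N S I y x := by
          refine ⟨hyS, hyI, hxI, hxS, ?_, ?_⟩
          · rw [← hJe]; exact hJ.1
          · rw [← hJe]; exact hJ.2.1
        have hl := up_level hup
        rw [← hJe] at hl
        rcases Nat.lt_or_ge k (I ∩ S).card with hlt | hge
        · exact hV.1 I J hI hJ hn hlt (by omega) hal
        · have h1 := hV.2 I y x hI (by omega) hup
          rw [← hJe] at h1
          exact h1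
      · -- horizontal
        have hlev : ∀ u, u ∉ S → ∀ K : Finset α, (insert u K) ∩ S = K ∩ S := by
          intro u hu K
          ext v
          simp only [Finset.mem_inter, Finset.mem_insert]
          constructor
          · rintro ⟨rfl | h, h2⟩
            · exact absurd h2 hu
            · exact ⟨h, h2⟩
          · rintro ⟨h, h2⟩
            exact ⟨Or.inr h, h2⟩
        have hIK : insert x (I.erase x) = I := Finset.insert_erase hxI
        have lI : (I ∩ S).card = ((I.erase x) ∩ S).card := by
          conv_lhs => rw [← hIK, hlev x hxS]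
        have lJ : (J ∩ S).card = ((I.erase x) ∩ S).card := by
          conv_lhs => rw [hJe, hlev y hyS]
        rcases Nat.lt_or_ge k (I ∩ S).card with hlt | hge
        · exact hV.1 I J hI hJ hn hlt (by omega) hal
        · have hxK : x ∉ I.erase x := Finset.notMem_erase _ _
          have hyK : y ∉ I.erase x := fun h => hyI (Finset.mem_of_mem_erase h)
          have hxy : x ≠ y := fun h => hxJ (h ▸ hyJ)
          have hK := hor α M N n S φ θ k (I.erase x) x y hS hclo hV hxK hyK hxy hxS hyS
            (by rw [hIK]; exact hI) (by rw [← hJe]; exact hJ) (by omega)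
          rw [hIK, ← hJe] at hK
          rcases hK with h | ⟨hP, _⟩
          · exact h
          · have hc := hcons (insert x J) y x hP
              (by rw [hlev x hxS]; omega)
              (Finset.mem_insert_of_mem hyJ) (Finset.mem_insert_self _ _) hyS hxS
            unfold Cons at hc
            have e1 : (insert x J).erase y = I := by
              rw [Finset.erase_insert_of_ne hxy]
              exact hIe.symm
            have e2 : (insert x J).erase x = J := Finset.erase_insert hxJ
            rw [e1, e2] at hc
            exact hc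

end Pool.Agent.R3M.H81
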